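import Pool.Agent.V11222.QuasiRay3

/-!
Every open subspace of a ray space is a quasi-ray space. The definitions of order trees, rays and
ray spaces are in `Pool/Agent/V11222/RayEndDefs.lean`.
-/

namespace Pool.Agent.Results.MP_a0fd6e_gt.OpenQuasiRay

open Set Topology Pool.Agent.V11222

universe u v

/-- `(X, τ)` is a ray space: it is homeomorphic to the space of (nonempty) rays of an order
tree. -/
def IsRaySpace (X : Type u) (τ : TopologicalSpace X) : Prop :=
  ∃ (S : Type v) (_ : PartialOrder S), IsOrderTree S ∧
    Nonempty (@Homeomorph X (NonemptyRaySpace S) τ inferInstance)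

/-- `(X, τ)` is a quasi-ray space: some coarser topology makes `X` a ray space. -/
def IsQuasiRaySpace (X : Type u) (τ : TopologicalSpace X) : Prop :=
  ∃ τ' : TopologicalSpace X, τ ≤ τ' ∧ IsRaySpace.{u, v} X τ'

/-- The variant of `IsRaySpace` in which the empty chain counts as a ray. -/
def IsRaySpaceE (X : Type u) (τ : TopologicalSpace X) : Prop :=
  ∃ (S : Type v) (_ : PartialOrder S), IsOrderTree S ∧
    Nonempty (@Homeomorph X (RaySpace S) τ inferInstance)

/-- The variant of `IsQuasiRaySpace` in which the empty chain counts as a ray. -/
def IsQuasiRaySpaceE (X : Type u) (τ : TopologicalSpace X) : Prop :=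
  ∃ τ' : TopologicalSpace X, τ ≤ τ' ∧ IsRaySpaceE.{u, v} X τ'

section aux

lemma continuous_to_nonempty {X : Type u} [TopologicalSpace X] {S : Type v} [PartialOrder S]
    (F : X → NonemptyRaySpace S)
    (h : ∀ s, IsOpen {x | s ∈ (F x).carrier} ∧ IsOpen {x | s ∉ (F x).carrier}) :
    Continuous F := by
  refine continuous_induced_rng.mpr (continuous_pi_iff.mpr (fun s => ?_))
  rw [continuous_bool_rng true]
  have h1 : (fun x => ((fun R : NonemptyRaySpace S => charFun R.carrier) ∘ F) x s) ⁻¹' {true} =
      {x | s ∈ (F x).carrier} := by
    ext x; simp [charFun]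
  rw [h1]
  exact ⟨⟨(h s).2⟩, (h s).1⟩

lemma continuous_to_ray {X : Type u} [TopologicalSpace X] {S : Type v} [PartialOrder S]
    (F : X → RaySpace S)
    (h : ∀ s, IsOpen {x | s ∈ (F x).carrier} ∧ IsOpen {x | s ∉ (F x).carrier}) :
    Continuous F := by
  refine continuous_induced_rng.mpr (continuous_pi_iff.mpr (fun s => ?_))
  rw [continuous_bool_rng true]
  have h1 : (fun x => ((fun R : RaySpace S => charFun R.carrier) ∘ F) x s) ⁻¹' {true} =
      {x | s ∈ (F x).carrier} := by
    ext x; simp [charFun]
  rw [h1]
  exact ⟨⟨(h s).2⟩, (h s).1⟩

lemma quasi_of_bijection {X : Type u} [τ : TopologicalSpace X] {S : Type v} [PartialOrder S]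
    (hS : IsOrderTree S) (F : X → NonemptyRaySpace S) (hF : Continuous F)
    (hb : Function.Bijective F) : IsQuasiRaySpace.{u, v} X τ := by
  refine ⟨TopologicalSpace.induced F inferInstance, continuous_iff_le_induced.mp hF, S,
    inferInstance, hS, ⟨?_⟩⟩
  letI := TopologicalSpace.induced F (inferInstance : TopologicalSpace (NonemptyRaySpace S))
  exact (Equiv.ofBijective F hb).toHomeomorphOfIsInducing ⟨rfl⟩

lemma quasi_of_bijectionE {X : Type u} [τ : TopologicalSpace X] {S : Type v} [PartialOrder S]
    (hS : IsOrderTree S) (F : X → RaySpace S) (hF : Continuous F)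
    (hb : Function.Bijective F) : IsQuasiRaySpaceE.{u, v} X τ := by
  refine ⟨TopologicalSpace.induced F inferInstance, continuous_iff_le_induced.mp hF, S,
    inferInstance, hS, ⟨?_⟩⟩
  letI := TopologicalSpace.induced F (inferInstance : TopologicalSpace (RaySpace S))
  exact (Equiv.ofBijective F hb).toHomeomorphOfIsInducing ⟨rfl⟩

lemma isOpenEmbedding_nonempty {T : Type v} [PartialOrder T] (hT : IsOrderTree T) :
    IsOpenEmbedding (fun R : NonemptyRaySpace T => (⟨R.carrier, R.isRay⟩ : RaySpace T)) := by
  refine ⟨isEmbedding_nonempty T, ?_⟩
  obtain ⟨r, hr⟩ := hT.exists_root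
  convert (isClopen_coneR (S := T) r).isOpen using 1
  ext R
  constructor
  · rintro ⟨ρ, rfl⟩
    obtain ⟨z, hz⟩ := ρ.nonempty
    exact ρ.isRay.1 (hr z) hz
  · intro hR
    exact ⟨⟨R.carrier, R.isRay, ⟨r, hR⟩⟩, rfl⟩

instance {T : Type v} [PartialOrder T] : T2Space (RaySpace T) := by
  refine T2Space.of_injective_continuous (f := fun R : RaySpace T => charFun R.carrier) ?_
    continuous_induced_dom
  intro R R' h
  apply raySpace_ext
  ext t
  have h1 := congrFun h t
  simpa [charFun] using h1

end aux

/-- Every open subspace of a ray space is a quasi-ray space (first part). If one also counts the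
empty chain as a ray, then an open subspace of a ray space is a quasi-ray space if and only if it
has an isolated point (second part). -/
theorem result :
    (∀ (X : Type u) [τ : TopologicalSpace X], IsRaySpace.{u, v} X τ →
      ∀ U : Set X, IsOpen U → IsQuasiRaySpace.{u, v} U inferInstance) ∧
    (∀ (X : Type u) [τ : TopologicalSpace X], IsRaySpaceE.{u, v} X τ →
      ∀ U : Set X, IsOpen U →
        (IsQuasiRaySpaceE.{u, v} U inferInstance ↔ ∃ x : U, IsOpen ({x} : Set U))) := by
  classical
  constructor
  · rintro X τ ⟨T, hTo, hT, ⟨e⟩⟩ U hU
    have hV : IsOpen (e.symm ⁻¹' U) := hU.preimage e.symm.continuous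
    obtain ⟨S, hSo, f, hS, hray, hinj, hsurj, hopen⟩ := rep_of_isOpen hT hV
    have hmem : ∀ x : U, e x.1 ∈ e.symm ⁻¹' U := by
      intro x
      change e.symm (e x.1) ∈ U
      rw [e.symm_apply_apply]
      exact x.2
    let F : U → NonemptyRaySpace S := fun x =>
      ⟨f (e x.1), (hray _ (hmem x)).1, (hray _ (hmem x)).2⟩
    have hcont : Continuous (fun x : U => e x.1) := e.continuous.comp continuous_subtype_val
    refine quasi_of_bijection hS F ?_ ⟨?_, ?_⟩
    · apply continuous_to_nonempty
      intro s
      constructor
      · convert (hopen s).1.preimage hcont using 1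
        ext x
        exact ⟨fun h => ⟨hmem x, h⟩, fun h => h.2⟩
      · convert (hopen s).2.preimage hcont using 1
        ext x
        exact ⟨fun h => ⟨hmem x, h⟩, fun h => h.2⟩
    · intro x y hxy
      have h1 : f (e x.1) = f (e y.1) := congrArg NonemptyRaySpace.carrier hxy
      exact Subtype.ext (e.injective (hinj (hmem x) (hmem y) h1))
    · intro R
      obtain ⟨ρ, hρ, hfρ⟩ := hsurj R.carrier R.isRay R.nonempty
      refine ⟨⟨e.symm ρ, hρ⟩, ?_⟩
      apply nonemptyRaySpace_ext
      change f (e (e.symm ρ)) = R.carrier
      rw [e.apply_symm_apply]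
      exact hfρ
  · rintro X τ ⟨T, hTo, hT, ⟨e⟩⟩ U hU
    constructor
    · rintro ⟨τ', hle, S, hSo, hS, ⟨g⟩⟩
      -- the empty ray is isolated
      obtain ⟨r, hr⟩ := hS.exists_root
      let E : RaySpace S := ⟨∅, ⟨fun _ _ _ h => h, by simp [IsChain], fun m hm => absurd hm (Set.notMem_empty m)⟩⟩
      have hE : IsOpen ({E} : Set (RaySpace S)) := by
        convert (isClopen_coneR (S := S) r).compl.isOpen using 1
        ext R
        constructor
        · rintro rfl
          exact Set.notMem_empty r
        · intro hR
          apply raySpace_ext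
          change R.carrier = ∅
          rw [Set.eq_empty_iff_forall_notMem]
          intro z hz
          exact hR (R.isRay.1 (hr z) hz)
      have h0 : ({g.symm E} : Set U) = g ⁻¹' {E} := by
        apply Set.eq_of_subset_of_subset
        · rintro x (rfl : x = g.symm E)
          exact g.apply_symm_apply E
        · intro x hx
          have hx' : g x = E := hx
          change x = g.symm E
          rw [← hx']
          exact (g.symm_apply_apply x).symm
      have h1 : @IsOpen U τ' (g ⁻¹' {E}) := hE.preimage g.continuous
      have h2 : @IsOpen U instTopologicalSpaceSubtype (g ⁻¹' {E}) := hle _ h1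
      refine ⟨g.symm E, ?_⟩
      rw [h0]
      exact h2
    · rintro ⟨x₀, hx₀⟩
      -- pass to the ray space of `T`
      let V : Set (RaySpace T) := e.symm ⁻¹' U
      have hV : IsOpen V := hU.preimage e.symm.continuous
      -- an isolated point which is the empty ray if possible
      have hp : ∃ p : RaySpace T, p ∈ V ∧ IsOpen ({p} : Set (RaySpace T)) ∧
          ∀ R ∈ V, R.carrier = ∅ → R = p := by
        by_cases hex : ∃ R ∈ V, R.carrier = ∅
        · obtain ⟨p, hpV, hpe⟩ := hex
          refine ⟨p, hpV, ?_, ?_⟩
          · obtain ⟨r, hr⟩ := hT.exists_root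
            convert (isClopen_coneR (S := T) r).compl.isOpen using 1
            ext R
            constructor
            · rintro rfl
              change r ∉ R.carrier
              rw [hpe]
              exact Set.notMem_empty r
            · intro hR
              apply raySpace_ext
              rw [hpe, Set.eq_empty_iff_forall_notMem]
              intro z hz
              exact hR (R.isRay.1 (hr z) hz)
          · intro R _ hR
            exact raySpace_ext (hR.trans hpe.symm)
        · refine ⟨e x₀.1, ?_, ?_, fun R hR hRe => absurd ⟨R, hR, hRe⟩ hex⟩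
          · change e.symm (e x₀.1) ∈ U
            rw [e.symm_apply_apply]
            exact x₀.2
          · have h1 : IsOpen (Subtype.val '' ({x₀} : Set U)) := hU.isOpenMap_subtype_val _ hx₀
            have h2 := e.isOpenMap _ h1
            simpa using h2
      obtain ⟨p, hpV, hpo, hpe⟩ := hp
      let ι : NonemptyRaySpace T → RaySpace T := fun R => ⟨R.carrier, R.isRay⟩
      have hι : IsOpenEmbedding ι := isOpenEmbedding_nonempty hT
      let V' : Set (NonemptyRaySpace T) := ι ⁻¹' (V \ {p})
      have hV' : IsOpen V' := (hV.sdiff isClosed_singleton).preimage hι.continuous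
      obtain ⟨S, hSo, f, hS, hray, hinj, hsurj, hopen⟩ := rep_of_isOpen hT hV'
      have hne : ∀ R : RaySpace T, R ∈ V → R ≠ p → R.carrier.Nonempty := by
        intro R hR hRp
        rw [Set.nonempty_iff_ne_empty]
        exact fun h => hRp (hpe R hR h)
      -- points of `U` other than the special one
      let N : ∀ R : RaySpace T, R ∈ V → R ≠ p → NonemptyRaySpace T :=
        fun R hR hRp => ⟨R.carrier, R.isRay, hne R hR hRp⟩
      have hN : ∀ R hR hRp, N R hR hRp ∈ V' := fun R hR hRp => ⟨hR, hRp⟩
      have hmemV : ∀ x : U, e x.1 ∈ V := by
        intro x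
        change e.symm (e x.1) ∈ U
        rw [e.symm_apply_apply]; exact x.2
      let E : RaySpace S := ⟨∅, ⟨fun _ _ _ h => h, by simp [IsChain],
        fun m hm => absurd hm (Set.notMem_empty m)⟩⟩
      let F : U → RaySpace S := fun x =>
        if h : e x.1 = p then E
        else ⟨f (N (e x.1) (hmemV x) h), (hray _ (hN (e x.1) (hmemV x) h)).1⟩
      have hFp : ∀ x : U, e x.1 = p → (F x).carrier = ∅ := by
        intro x hx
        simp only [F, dif_pos hx, E]
      have hFn : ∀ (x : U) (hx : e x.1 ≠ p), (F x).carrier = f (N (e x.1) (hmemV x) hx) := by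
        intro x hx
        simp only [F, dif_neg hx]
      have hcont : Continuous (fun x : U => e x.1) := e.continuous.comp continuous_subtype_val
      refine quasi_of_bijectionE hS F ?_ ⟨?_, ?_⟩
      · apply continuous_to_ray
        intro s
        constructor
        · convert (hι.isOpenMap _ (hopen s).1).preimage hcont using 1
          ext x
          constructor
          · intro hx
            have hx' : s ∈ (F x).carrier := hx
            have hxp : e x.1 ≠ p := by
              intro h
              rw [hFp x h] at hx'
              exact Set.notMem_empty s hx'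
            rw [hFn x hxp] at hx'
            exact ⟨N (e x.1) (hmemV x) hxp, ⟨hN _ (hmemV x) hxp, hx'⟩, rfl⟩
          · rintro ⟨ρ, ⟨hρ, hs⟩, hρx⟩
            have hρx' : ι ρ = e x.1 := hρx
            have hxp : e x.1 ≠ p := by
              intro h
              apply hρ.2
              rw [hρx', h]
              rfl
            change s ∈ (F x).carrier
            rw [hFn x hxp]
            have h1 : N (e x.1) (hmemV x) hxp = ρ := by
              apply nonemptyRaySpace_ext
              exact (congrArg RaySpace.carrier hρx').symm
            rw [h1]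
            exact hs
        · have h1 : IsOpen ((fun x : U => e x.1) ⁻¹' ({p} ∪ ι '' {x | x ∈ V' ∧ s ∉ f x})) :=
            (hpo.union (hι.isOpenMap _ (hopen s).2)).preimage hcont
          convert h1 using 1
          ext x
          constructor
          · intro hx
            have hx' : s ∉ (F x).carrier := hx
            by_cases hxp : e x.1 = p
            · exact Or.inl hxp
            · right
              rw [hFn x hxp] at hx'
              exact ⟨N (e x.1) (hmemV x) hxp, ⟨hN _ (hmemV x) hxp, hx'⟩, rfl⟩
          · rintro (h | ⟨ρ, ⟨hρ, hs⟩, hρx⟩)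
            · change s ∉ (F x).carrier
              rw [hFp x h]
              exact Set.notMem_empty s
            · have hρx' : ι ρ = e x.1 := hρx
              have hxp : e x.1 ≠ p := by
                intro h
                apply hρ.2
                rw [hρx', h]
                rfl
              change s ∉ (F x).carrier
              rw [hFn x hxp]
              have h1 : N (e x.1) (hmemV x) hxp = ρ := by
                apply nonemptyRaySpace_ext
                exact (congrArg RaySpace.carrier hρx').symm
              rw [h1]
              exact hs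
      · intro x y hxy
        have h0 : (F x).carrier = (F y).carrier := by rw [hxy]
        by_cases hx : e x.1 = p
        · by_cases hy : e y.1 = p
          · exact Subtype.ext (e.injective (hx.trans hy.symm))
          · exfalso
            rw [hFp x hx, hFn y hy] at h0
            have h1 := (hray _ (hN (e y.1) (hmemV y) hy)).2
            rw [← h0] at h1
            exact Set.not_nonempty_empty h1
        · by_cases hy : e y.1 = p
          · exfalso
            rw [hFp y hy, hFn x hx] at h0
            have h1 := (hray _ (hN (e x.1) (hmemV x) hx)).2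
            rw [h0] at h1
            exact Set.not_nonempty_empty h1
          · rw [hFn x hx, hFn y hy] at h0
            have h1 := hinj (hN _ (hmemV x) hx) (hN _ (hmemV y) hy) h0
            have h2 : (e x.1).carrier = (e y.1).carrier := congrArg NonemptyRaySpace.carrier h1
            exact Subtype.ext (e.injective (raySpace_ext h2))
      · intro R
        by_cases hRe : R.carrier = ∅
        · refine ⟨⟨e.symm p, hpV⟩, ?_⟩
          apply raySpace_ext
          rw [hFp _ (e.apply_symm_apply p), hRe]
        · obtain ⟨ρ, hρ, hfρ⟩ := hsurj R.carrier R.isRay (Set.nonempty_iff_ne_empty.mpr hRe)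
          have hxp : e (e.symm (ι ρ)) ≠ p := by
            rw [e.apply_symm_apply]
            exact hρ.2
          refine ⟨⟨e.symm (ι ρ), hρ.1⟩, ?_⟩
          apply raySpace_ext
          rw [hFn _ hxp, ← hfρ]
          congr 1
          apply nonemptyRaySpace_ext
          change (e (e.symm (ι ρ))).carrier = ρ.carrier
          rw [e.apply_symm_apply]

end Pool.Agent.Results.MP_a0fd6e_gt.OpenQuasiRay
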